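import Mathlib

/-!
# MP_8a6e71_co: cycles in non-separating signed interaction graphs

We refute Q1: the Boolean network on five components
`f₀ = NAE(x₁,x₂,x₃)`, `f₁ = NAE(x₀,x₂,x₄)`, `f₂ = x₃ ⊕ x₄`, `f₃ = x₀ ⊕ x₁`, `f₄ = x₀ ⊕ x₃`
has a non-separating asynchronous graph, and its signed interaction graph has no positive cycle
that is disjoint from a negative cycle (it has no two disjoint cycles at all).
-/

namespace Pool.Agent.Results.MP_8a6e71_co.NoDisjointCycles

/-- the states `{0,1}^n` -/
abbrev State (n : ℕ) := Fin n → Bool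

/-- Boolean networks `f : {0,1}^n → {0,1}^n` -/
abbrev Network (n : ℕ) := State n → State n

/-- Signed digraphs on `[n]`: `G j i true` is a positive arc `j → i`, `G j i false` a negative
arc `j → i`; loops are allowed, and both signs may be present. -/
abbrev SignedDigraph (n : ℕ) := Fin n → Fin n → Bool → Prop

/-- The signed interaction graph `G(f)`: there is a positive (`s = true`), resp. negative
(`s = false`), arc `j → i` iff some `x, y` differ only in the coordinate `j`, `x_j < y_j` and
`f_i(y) - f_i(x) > 0`, resp. `< 0`. -/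
def interactionGraph {n : ℕ} (f : Network n) : SignedDigraph n := fun j i s =>
  ∃ x y : State n, (∀ k, k ≠ j → x k = y k) ∧ x j = false ∧ y j = true ∧
    f x i = !s ∧ f y i = s

/-- A cycle of `G` with `m + 1` vertices `v 0, …, v m` (distinct), with an arc of sign `s k` from
`v k` to `v (k + 1)`, indices modulo `m + 1`; for `m = 0` this is a loop. -/
def IsCycle {n : ℕ} (G : SignedDigraph n) (m : ℕ) (v : Fin (m + 1) → Fin n)
    (s : Fin (m + 1) → Bool) : Prop :=
  Function.Injective v ∧ ∀ k, G (v k) (v (k + 1)) (s k)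

/-- the sign of a cycle: the product of the signs of its arcs -/
def cycleSign {m : ℕ} (s : Fin (m + 1) → Bool) : ℤ := ∏ k, if s k then 1 else -1

/-- `G` has a positive cycle and a negative cycle that are (vertex-)disjoint. -/
def HasDisjointPosNeg {n : ℕ} (G : SignedDigraph n) : Prop :=
  ∃ (m : ℕ) (v : Fin (m + 1) → Fin n) (s : Fin (m + 1) → Bool)
    (m' : ℕ) (v' : Fin (m' + 1) → Fin n) (s' : Fin (m' + 1) → Bool),
    IsCycle G m v s ∧ cycleSign s = 1 ∧ IsCycle G m' v' s' ∧ cycleSign s' = -1 ∧
      ∀ k k', v k ≠ v' k'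

/-- the arcs of the asynchronous graph `Γ(f)` -/
def AsyncArc {n : ℕ} (f : Network n) (x y : State n) : Prop :=
  ∃ i, x i ≠ f x i ∧ y = Function.update x i (!x i)

/-- trap sets: no arc of `Γ(f)` leaves the set -/
def Trap {n : ℕ} (f : Network n) (X : Set (State n)) : Prop :=
  ∀ x ∈ X, ∀ y, AsyncArc f x y → y ∈ X

/-- attractors: inclusion-minimal nonempty trap sets -/
def Attractor {n : ℕ} (f : Network n) (A : Set (State n)) : Prop :=
  A.Nonempty ∧ Trap f A ∧ ∀ Y : Set (State n), Y ⊆ A → Y.Nonempty → Trap f Y → Y = A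

/-- subspaces of `{0,1}^n` -/
def IsSubspace {n : ℕ} (S : Set (State n)) : Prop :=
  ∃ (I : Set (Fin n)) (c : Fin n → Bool), S = {x | ∀ i ∈ I, x i = c i}

/-- `[X]`, the smallest subspace that contains `X` (for `X` nonempty) -/
def hull {n : ℕ} (X : Set (State n)) : Set (State n) := ⋂₀ {S | IsSubspace S ∧ X ⊆ S}

/-- `Γ(f)` is separating -/
def Separating {n : ℕ} (f : Network n) : Prop :=
  ∀ A B : Set (State n), Attractor f A → Attractor f B → A ≠ B → hull A ∩ hull B = ∅

/-- non-separating signed digraphs -/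
def NonSeparating {n : ℕ} (G : SignedDigraph n) : Prop :=
  ∃ f : Network n, G = interactionGraph f ∧ ¬ Separating f

/-! ### Sanity check: `hull X` is the smallest subspace containing a nonempty set `X` -/

theorem hull_isLeast {n : ℕ} {X : Set (State n)} (hX : X.Nonempty) :
    IsLeast {S | IsSubspace S ∧ X ⊆ S} (hull X) := by
  obtain ⟨x₀, hx₀⟩ := hX
  refine ⟨⟨⟨{i | ∀ x ∈ X, x i = x₀ i}, x₀, ?_⟩, ?_⟩, ?_⟩
  · apply Set.Subset.antisymm
    · apply Set.sInter_subset_of_mem
      exact ⟨⟨{i | ∀ x ∈ X, x i = x₀ i}, x₀, rfl⟩, fun x hx i hi => hi x hx⟩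
    · intro z hz S hS
      obtain ⟨⟨I, c, rfl⟩, hXS⟩ := hS
      intro i hi
      have h1 : ∀ x ∈ X, x i = x₀ i := fun x hx => (hXS hx i hi).trans (hXS hx₀ i hi).symm
      exact (hz i h1).trans (hXS hx₀ i hi)
  · intro x hx S hS
    exact hS.2 hx
  · intro S hS
    exact Set.sInter_subset_of_mem hS

/-! ### The network -/

/-- the counterexample -/
def net : Network 5 := fun x =>
  ![!(x 1 == x 2 && x 2 == x 3), !(x 0 == x 2 && x 2 == x 4), xor (x 3) (x 4),
    xor (x 0) (x 1), xor (x 0) (x 3)]

/-- the arcs of the underlying digraph -/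
def E (j i : Fin 5) : Bool :=
  (![![false, true, false, true, true], ![true, false, false, true, false],
    ![true, true, false, false, false], ![true, false, true, false, true],
    ![false, true, true, false, false]] : Fin 5 → Fin 5 → Bool) j i

theorem state_eq (x : State 5) : x = ![x 0, x 1, x 2, x 3, x 4] := by
  funext i
  fin_cases i <;> rfl

theorem dep_aux : ∀ (a b c d e : Bool) (j i : Fin 5), E j i = false →
    net (Function.update ![a, b, c, d, e] j false) i =
      net (Function.update ![a, b, c, d, e] j true) i := by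
  decide

theorem dep (j i : Fin 5) (s : Bool) (h : interactionGraph net j i s) : E j i = true := by
  obtain ⟨x, y, h1, h2, h3, h4, h5⟩ := h
  by_contra hE
  have hE' : E j i = false := by simpa using hE
  have h6 := dep_aux (x 0) (x 1) (x 2) (x 3) (x 4) j i hE'
  rw [← state_eq x] at h6
  have hx : Function.update x j false = x := by
    rw [← h2]; exact Function.update_eq_self j x
  have hy : Function.update x j true = y := by
    funext k
    by_cases hk : k = j
    · subst hk; simp [h3]
    · rw [Function.update_of_ne hk, h1 k hk]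
  rw [hx, hy, h4, h5] at h6
  cases s <;> simp at h6

theorem noDisjoint_aux : ∀ s0 s1 s2 s3 s4 t0 t1 t2 t3 t4 : Bool,
    (s0 || s1 || s2 || s3 || s4) = true → (t0 || t1 || t2 || t3 || t4) = true →
    (s0 = true → (s1 || s3 || s4) = true) → (s1 = true → (s0 || s3) = true) →
    (s2 = true → (s0 || s1) = true) → (s3 = true → (s0 || s2 || s4) = true) →
    (s4 = true → (s1 || s2) = true) →
    (t0 = true → (t1 || t3 || t4) = true) → (t1 = true → (t0 || t3) = true) →
    (t2 = true → (t0 || t1) = true) → (t3 = true → (t0 || t2 || t4) = true) →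
    (t4 = true → (t1 || t2) = true) →
    ((s0 && t0) || (s1 && t1) || (s2 && t2) || (s3 && t3) || (s4 && t4)) = true := by
  decide

/-- two vertex sets that are nonempty and in which every vertex has an out-neighbour meet -/
theorem meet (S T : Fin 5 → Bool) (hS : ∃ v, S v = true) (hT : ∃ v, T v = true)
    (h1 : ∀ v, S v = true → ∃ i, S i = true ∧ E v i = true)
    (h2 : ∀ v, T v = true → ∃ i, T i = true ∧ E v i = true) : ∃ v, S v = true ∧ T v = true := by
  have key := noDisjoint_aux (S 0) (S 1) (S 2) (S 3) (S 4) (T 0) (T 1) (T 2) (T 3) (T 4)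
  have e1 : (S 0 || S 1 || S 2 || S 3 || S 4) = true := by
    obtain ⟨v, hv⟩ := hS
    fin_cases v <;> simp_all
  have e2 : (T 0 || T 1 || T 2 || T 3 || T 4) = true := by
    obtain ⟨v, hv⟩ := hT
    fin_cases v <;> simp_all
  have g : ∀ U : Fin 5 → Bool, (∀ v, U v = true → ∃ i, U i = true ∧ E v i = true) →
      (U 0 = true → (U 1 || U 3 || U 4) = true) ∧ (U 1 = true → (U 0 || U 3) = true) ∧
      (U 2 = true → (U 0 || U 1) = true) ∧ (U 3 = true → (U 0 || U 2 || U 4) = true) ∧
      (U 4 = true → (U 1 || U 2) = true) := by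
    intro U hU
    refine ⟨fun h => ?_, fun h => ?_, fun h => ?_, fun h => ?_, fun h => ?_⟩ <;>
    · obtain ⟨i, hi, hE⟩ := hU _ h
      fin_cases i <;> simp_all [E]
  obtain ⟨a1, a2, a3, a4, a5⟩ := g S h1
  obtain ⟨b1, b2, b3, b4, b5⟩ := g T h2
  have := key e1 e2 a1 a2 a3 a4 a5 b1 b2 b3 b4 b5
  simp only [Bool.or_eq_true, Bool.and_eq_true] at this
  rcases this with (((h | h) | h) | h) | h
  · exact ⟨0, h⟩
  · exact ⟨1, h⟩
  · exact ⟨2, h⟩
  · exact ⟨3, h⟩
  · exact ⟨4, h⟩

/-- the interaction graph of the network has no two disjoint cycles -/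
theorem cycles_meet {m m' : ℕ} {v : Fin (m + 1) → Fin 5} {s : Fin (m + 1) → Bool}
    {v' : Fin (m' + 1) → Fin 5} {s' : Fin (m' + 1) → Bool}
    (h : IsCycle (interactionGraph net) m v s) (h' : IsCycle (interactionGraph net) m' v' s') :
    ∃ k k', v k = v' k' := by
  classical
  obtain ⟨w, hw1, hw2⟩ := meet (fun w => decide (∃ k, v k = w)) (fun w => decide (∃ k, v' k = w))
    ⟨v 0, by simp⟩ ⟨v' 0, by simp⟩
    (by
      intro w hw
      obtain ⟨k, rfl⟩ := of_decide_eq_true hw
      exact ⟨v (k + 1), decide_eq_true ⟨k + 1, rfl⟩, dep _ _ _ (h.2 k)⟩)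
    (by
      intro w hw
      obtain ⟨k, rfl⟩ := of_decide_eq_true hw
      exact ⟨v' (k + 1), decide_eq_true ⟨k + 1, rfl⟩, dep _ _ _ (h'.2 k)⟩)
  obtain ⟨k, hk⟩ := of_decide_eq_true hw1
  obtain ⟨k', hk'⟩ := of_decide_eq_true hw2
  exact ⟨k, k', hk.trans hk'.symm⟩

/-! ### The two attractors -/

/-- the state with binary code `k` -/
def st (k : ℕ) : State 5 :=
  ![k.testBit 0, k.testBit 1, k.testBit 2, k.testBit 3, k.testBit 4]

/-- a closed walk in the asynchronous graph through all states of the second attractor -/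
def walk : List ℕ :=
  [26, 27, 19, 23, 21, 29, 25, 9, 13, 15, 7, 3, 19, 23, 21, 29, 25, 27, 11, 15, 14, 30, 26]

/-- the `k`-th state of the walk -/
def wk (k : ℕ) : State 5 := st (walk.getD k 0)

/-- the second attractor -/
def B : Set (State 5) := {x | ∃ k ∈ Finset.range 23, wk k = x}

instance (x : State 5) : Decidable (x ∈ B) :=
  inferInstanceAs (Decidable (∃ k ∈ Finset.range 23, wk k = x))

instance (f : Network 5) (x y : State 5) : Decidable (AsyncArc f x y) :=
  inferInstanceAs (Decidable (∃ i, x i ≠ f x i ∧ y = Function.update x i (!x i)))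

theorem wk_step : ∀ k ∈ Finset.range 22, AsyncArc net (wk k) (wk (k + 1)) := by
  decide

theorem wk_closed : wk 22 = wk 0 := by
  decide

theorem trap_B_aux : ∀ k ∈ Finset.range 23, ∀ i : Fin 5, wk k i ≠ net (wk k) i →
    ∃ l ∈ Finset.range 23, wk l = Function.update (wk k) i (!wk k i) := by
  decide

theorem trap_B : Trap net B := by
  rintro x ⟨k, hk, rfl⟩ y ⟨i, hi, rfl⟩
  exact trap_B_aux k hk i hi

theorem walk_in {Y : Set (State 5)} (hY : Trap net Y) {k l : ℕ} (hkl : k ≤ l) (hl : l ≤ 22)
    (h : wk k ∈ Y) : wk l ∈ Y := by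
  induction l, hkl using Nat.le_induction with
  | base => exact h
  | succ l hkl ih =>
    exact hY _ (ih (by omega)) _ (wk_step l (Finset.mem_range.2 (by omega)))

theorem attractor_B : Attractor net B := by
  refine ⟨⟨wk 0, 0, by decide, rfl⟩, trap_B, ?_⟩
  intro Y hYB hne hY
  obtain ⟨y, hy⟩ := hne
  obtain ⟨k, hk, hky⟩ := hYB hy
  rw [← hky] at hy
  have h1 : wk 22 ∈ Y := walk_in hY (by have := Finset.mem_range.1 hk; omega) le_rfl hy
  rw [wk_closed] at h1
  apply Set.Subset.antisymm hYB
  rintro x ⟨l, hl, rfl⟩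
  exact walk_in hY (Nat.zero_le l) (by have := Finset.mem_range.1 hl; omega) h1

/-- the zero state -/
def zero : State 5 := fun _ => false

theorem net_zero : net zero = zero := by
  decide

theorem attractor_zero : Attractor net {zero} := by
  refine ⟨⟨zero, rfl⟩, ?_, ?_⟩
  · rintro x rfl y ⟨i, hi, _⟩
    rw [net_zero] at hi
    exact absurd rfl hi
  · intro Y hY hne _
    apply Set.Subset.antisymm hY
    rintro x rfl
    obtain ⟨y, hy⟩ := hne
    rw [Set.mem_singleton_iff.1 (hY hy)] at hy
    exact hy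

theorem zero_notMem_B : zero ∉ B := by
  decide

theorem both_values : ∀ i : Fin 5, (∃ k ∈ Finset.range 23, wk k i = false) ∧
    (∃ k ∈ Finset.range 23, wk k i = true) := by
  decide

theorem zero_mem_hull_B : zero ∈ hull B := by
  intro S hS
  obtain ⟨⟨I, c, rfl⟩, hBS⟩ := hS
  intro i hi
  exfalso
  obtain ⟨⟨k, hk, hk'⟩, ⟨l, hl, hl'⟩⟩ := both_values i
  have h1 := hBS (⟨k, hk, rfl⟩ : wk k ∈ B) i hi
  have h2 := hBS (⟨l, hl, rfl⟩ : wk l ∈ B) i hi
  rw [hk'] at h1
  rw [hl'] at h2
  rw [← h2] at h1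
  exact Bool.false_ne_true h1

theorem not_separating : ¬ Separating net := by
  intro h
  have h1 := h {zero} B attractor_zero attractor_B (by
    intro h2
    apply zero_notMem_B
    rw [← h2]
    rfl)
  have h2 : zero ∈ hull ({zero} : Set (State 5)) ∩ hull B :=
    ⟨fun S hS => hS.2 rfl, zero_mem_hull_B⟩
  rw [h1] at h2
  exact h2

/-- **Q1 of MP_8a6e71_co is false**: some non-separating signed digraph (on five vertices) has no
positive cycle that is disjoint from a negative cycle; it even has no two disjoint cycles. -/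
theorem result : ∃ G : SignedDigraph 5, NonSeparating G ∧ ¬ HasDisjointPosNeg G := by
  refine ⟨interactionGraph net, ⟨net, rfl, not_separating⟩, ?_⟩
  rintro ⟨m, v, s, m', v', s', h, _, h', _, hd⟩
  obtain ⟨k, k', hk⟩ := cycles_meet h h'
  exact hd k k' hk

end Pool.Agent.Results.MP_8a6e71_co.NoDisjointCycles
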